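import Mathlib
import Pool.Agent.Lib.helper12.CFDim

set_option autoImplicit false

namespace Pool.Agent.H.MP_41c62e_nt

open Set Metric Filter Topology MeasureTheory
open scoped ENNReal NNReal

theorem moran {F : Type} [Fintype F] (r : F → ℝ) (hr : ∀ e, 0 < r e ∧ r e ≤ 1 / 4)
    (π : (ℕ → F) → ℝ) (δ : ℝ) (hδ : 0 < δ)
    (hπ : ∀ k ω τ, (∀ i < k, ω i = τ i) → ω k ≠ τ k →
      δ * ∏ i ∈ Finset.range k, r (τ i) ≤ dist (π ω) (π τ))
    {s : ℝ} (hs : 0 < s) (hF : 1 ≤ ∑ e, r e ^ s) (E : Set ℝ) (hE : ∀ ω, π ω ∈ E) :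
    ENNReal.ofReal s ≤ dimH E := by
  classical
  set Z := ∑ e, r e ^ s with hZ
  have hZ0 : 0 < Z := by linarith
  have hrs : ∀ e, 0 ≤ r e ^ s := fun e => Real.rpow_nonneg (hr e).1.le _
  let _ : MeasurableSpace F := ⊤
  set p : PMF F := PMF.ofFintype (fun e => ENNReal.ofReal (r e ^ s / Z)) (by
    rw [← ENNReal.ofReal_sum_of_nonneg (fun e _ => div_nonneg (hrs _) hZ0.le), ← Finset.sum_div,
      ← hZ, div_self hZ0.ne', ENNReal.ofReal_one]) with hp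
  set μ : Measure (ℕ → F) := Measure.infinitePi (fun _ : ℕ => p.toMeasure) with hμ
  have hR : ∀ (τ : ℕ → F) (k : ℕ), 0 < ∏ i ∈ Finset.range k, r (τ i) := fun τ k =>
    Finset.prod_pos fun i _ => (hr _).1
  have hcyl : ∀ (τ : ℕ → F) (k : ℕ), μ {ω | ∀ i < k, ω i = τ i} ≤
      ENNReal.ofReal ((∏ i ∈ Finset.range k, r (τ i)) ^ s) := by
    intro τ k
    have : {ω : ℕ → F | ∀ i < k, ω i = τ i} = Set.pi (Finset.range k) (fun i => {τ i}) := by
      ext ω; simp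
    rw [this, hμ, Measure.infinitePi_pi _ (t := fun i => {τ i}) (fun i _ => trivial),
      ← Real.finsetProd_rpow _ _ (fun i _ => (hr _).1.le),
      ENNReal.ofReal_prod_of_nonneg (fun i _ => hrs _)]
    refine Finset.prod_le_prod' (fun i _ => ?_)
    rw [PMF.toMeasure_apply_singleton p (τ i) MeasurableSpace.measurableSet_top, hp,
      PMF.ofFintype_apply]
    exact ENNReal.ofReal_le_ofReal (div_le_self (hrs _) hF)
  have key : ∀ U : Set ℝ, ENNReal.ofReal (δ ^ s) * μ (π ⁻¹' U) ≤ Metric.ediam U ^ s := by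
    intro U
    rcases (π ⁻¹' U).eq_empty_or_nonempty with he | ⟨τ, hτ⟩
    · rw [he]; simp
    by_cases hall : ∃ k, ∃ ω ∈ π ⁻¹' U, ω k ≠ τ k
    · obtain ⟨ω, hω, hne⟩ := Nat.find_spec hall
      set k := Nat.find hall with hk
      have hsub : π ⁻¹' U ⊆ {ω | ∀ i < k, ω i = τ i} := by
        intro ω' hω' i hi
        by_contra hc
        exact Nat.find_min hall hi ⟨ω', hω', hc⟩
      have hdist := hπ k ω τ (hsub hω) hne
      have := hR τ k
      calc ENNReal.ofReal (δ ^ s) * μ (π ⁻¹' U)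
          ≤ ENNReal.ofReal (δ ^ s) * ENNReal.ofReal ((∏ i ∈ Finset.range k, r (τ i)) ^ s) :=
            mul_le_mul_right ((measure_mono hsub).trans (hcyl τ k)) _
        _ = ENNReal.ofReal (δ * ∏ i ∈ Finset.range k, r (τ i)) ^ s := by
            rw [← ENNReal.ofReal_mul (Real.rpow_nonneg hδ.le _), ← Real.mul_rpow hδ.le this.le,
              ENNReal.ofReal_rpow_of_nonneg (by positivity) hs.le]
        _ ≤ _ := by
            refine ENNReal.rpow_le_rpow ?_ hs.le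
            refine le_trans ?_ (Metric.edist_le_ediam_of_mem hω hτ)
            rw [edist_dist]; exact ENNReal.ofReal_le_ofReal hdist
    · push Not at hall
      have h0 : μ (π ⁻¹' U) = 0 := by
        have hl : Tendsto (fun k : ℕ => ENNReal.ofReal (((1 / 4 : ℝ) ^ s) ^ k)) atTop (𝓝 0) := by
          rw [← ENNReal.ofReal_zero]
          exact ENNReal.tendsto_ofReal (tendsto_pow_atTop_nhds_zero_of_lt_one (by positivity)
            (Real.rpow_lt_one (by norm_num) (by norm_num) hs))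
        refine le_antisymm (ge_of_tendsto hl (Eventually.of_forall (fun k => ?_))) (by positivity)
        have hsub : π ⁻¹' U ⊆ {ω | ∀ i < k, ω i = τ i} := fun ω hω i _ => hall i ω hω
        refine (measure_mono hsub).trans ((hcyl τ k).trans ?_)
        refine ENNReal.ofReal_le_ofReal ?_
        rw [← Real.rpow_natCast, ← Real.rpow_mul (by norm_num), mul_comm,
          Real.rpow_mul (by norm_num), Real.rpow_natCast]
        refine Real.rpow_le_rpow (hR _ _).le ?_ hs.le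
        have := Finset.prod_le_prod (s := Finset.range k) (f := fun i => r (τ i))
          (g := fun _ => 1 / 4) (fun i _ => (hr _).1.le) (fun i _ => (hr _).2)
        simpa using this
      rw [h0]; simp
  have hle := OuterMeasure.le_mkMetric (fun d => d ^ s)
    (ENNReal.ofReal (δ ^ s) • OuterMeasure.map π μ.toOuterMeasure) 1 one_pos (fun U _ => key U)
  have h2 := hle E
  rw [OuterMeasure.coe_mkMetric] at h2
  have h3 : π ⁻¹' E = univ := eq_univ_of_forall hE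
  have h4 : (ENNReal.ofReal (δ ^ s) • OuterMeasure.map π μ.toOuterMeasure) E =
      ENNReal.ofReal (δ ^ s) := by
    rw [smul_apply, OuterMeasure.map_apply, h3]
    simp
  rw [h4] at h2
  have h5 : Measure.hausdorffMeasure s E ≠ 0 :=
    ne_of_gt (lt_of_lt_of_le (ENNReal.ofReal_pos.2 (Real.rpow_pos_of_pos hδ _)) h2)
  lift s to NNReal using hs.le
  rw [ENNReal.ofReal_coe_nnreal]
  exact le_dimH_of_hausdorffMeasure_ne_zero h5

def J (A : Set ℕ) : Set ℝ :=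
  {x | x ∈ Ioo (0 : ℝ) 1 ∧ ∀ i, ⌊1 / ((fun y : ℝ => Int.fract (1 / y))^[i] x)⌋₊ ∈ A}

noncomputable def cp : List ℕ → ℝ → ℝ
  | [], x => x
  | a :: l, x => 1 / (a + cp l x)

noncomputable def E : List ℕ → ℝ → ℝ
  | [], _ => 1
  | a :: l, x => 1 / (a + cp l x) * E l x

theorem one_div_mem {a : ℕ} (ha : 1 ≤ a) {y : ℝ} (hy : y ∈ Icc (0 : ℝ) 1) :
    0 < 1 / (a + y) ∧ 1 / (a + y) ≤ 1 := by
  have : (1 : ℝ) ≤ a := by exact_mod_cast ha
  have := hy.1
  exact ⟨by positivity, by rw [div_le_one] <;> linarith⟩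

theorem cp_mem {l : List ℕ} (hl : ∀ a ∈ l, 1 ≤ a) {x : ℝ} (hx : x ∈ Icc (0 : ℝ) 1) :
    cp l x ∈ Icc (0 : ℝ) 1 ∧ 0 < E l x ∧ E l x * (3 / 2) ^ l.length ≤ 1 + cp l x := by
  induction l with
  | nil => exact ⟨hx, one_pos, by simpa [E, cp] using hx.1⟩
  | cons a l ih =>
    obtain ⟨h1, h2, h3⟩ := ih fun b hb => hl b (List.mem_cons_of_mem _ hb)
    have ha := hl a List.mem_cons_self
    obtain ⟨h4, h5⟩ := one_div_mem ha h1
    refine ⟨⟨h4.le, h5⟩, mul_pos h4 h2, ?_⟩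
    have : (1 : ℝ) ≤ a := by exact_mod_cast ha
    have e : 1 / (a + cp l x) * (a + cp l x) = 1 := one_div_mul_cancel (by linarith [h1.1])
    rw [E, cp, List.length_cons, pow_succ]
    nlinarith [mul_le_mul_of_nonneg_left h3 h4.le, h1.2,
      mul_nonneg h4.le (by linarith [h1.2] : 0 ≤ a + cp l x + 1 - 3 / 2 * (1 + cp l x))]

theorem cp_sub {l : List ℕ} (hl : ∀ a ∈ l, 1 ≤ a) {x y : ℝ} (hx : x ∈ Icc (0 : ℝ) 1)
    (hy : y ∈ Icc (0 : ℝ) 1) : |cp l x - cp l y| = E l x * E l y * |x - y| := by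
  induction l with
  | nil => simp [E, cp]
  | cons a l ih =>
    have hl' : ∀ b ∈ l, 1 ≤ b := fun b hb => hl b (List.mem_cons_of_mem _ hb)
    have ha : (1 : ℝ) ≤ a := by exact_mod_cast hl a List.mem_cons_self
    have h1 : 0 < a + cp l x := by linarith [(cp_mem hl' hx).1.1]
    have h2 : 0 < a + cp l y := by linarith [(cp_mem hl' hy).1.1]
    rw [cp, cp, E, E, div_sub_div _ _ h1.ne' h2.ne', abs_div, one_mul, mul_one,
      add_sub_add_left_eq_sub, abs_sub_comm, ih hl', abs_of_pos (mul_pos h1 h2)]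
    field_simp

theorem E_form {l : List ℕ} (hl : ∀ a ∈ l, 1 ≤ a) : ∃ p p' q q' : ℝ, 0 ≤ p ∧ 0 ≤ p' ∧ 0 < q ∧ 0 ≤ q' ∧
    q' ≤ q ∧ p' + q' ≤ p + q ∧ ∀ x, 0 ≤ x → E l x = 1 / (q + q' * x) ∧
      cp l x = (p + p' * x) / (q + q' * x) := by
  induction l with
  | nil => exact ⟨0, 1, 1, 0, by simp [E, cp]⟩
  | cons a l ih =>
    obtain ⟨p, p', q, q', h1, h2, h3, h4, h5, h6, h7⟩ := ih fun b hb => hl b (List.mem_cons_of_mem _ hb)
    have ha : (1 : ℝ) ≤ a := by exact_mod_cast hl a List.mem_cons_self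
    refine ⟨q, q', a * q + p, a * q' + p', h3.le, h4, by positivity, by positivity, by nlinarith,
      by nlinarith, fun x hx => ?_⟩
    have e1 : 0 < q + q' * x := by positivity
    have e2 : 0 < a * q + p + (a * q' + p') * x := by positivity
    have e3 : a + (p + p' * x) / (q + q' * x) = (a * q + p + (a * q' + p') * x) / (q + q' * x) := by
      field_simp; ring
    rw [E, cp, (h7 x hx).1, (h7 x hx).2, e3]
    constructor <;> field_simp

theorem E_dist {l : List ℕ} (hl : ∀ a ∈ l, 1 ≤ a) {x : ℝ} (hx : x ∈ Icc (0 : ℝ) 1) :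
    E l x ≤ E l 0 ∧ E l 0 ≤ 2 * E l x := by
  obtain ⟨p, p', q, q', -, -, h3, h4, h5, -, h7⟩ := E_form hl
  have := mul_nonneg h4 hx.1
  rw [(h7 x hx.1).1, (h7 0 le_rfl).1, mul_zero, add_zero, mul_one_div]
  constructor
  · gcongr; linarith
  · rw [div_le_div_iff₀ h3 (by linarith)]; nlinarith [hx.2]

def wd {B : Set ℕ} {N : ℕ} (ω : Fin N → B) : List ℕ := List.ofFn fun i => (ω i : ℕ)

theorem wd_ok {B : Set ℕ} (hB : ∀ a ∈ B, 1 ≤ a) {N : ℕ} (ω : Fin N → B) : ∀ a ∈ wd ω, 1 ≤ a := by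
  intro a ha
  obtain ⟨i, rfl⟩ := List.mem_ofFn.1 ha
  exact hB _ (ω i).2

noncomputable def L (B : Set ℕ) (t : ℝ) (f : ℝ → ℝ≥0∞) (x : ℝ) : ℝ≥0∞ :=
  ∑' a : B, ENNReal.ofReal ((1 / ((a : ℕ) + x)) ^ (2 * t)) * f (1 / ((a : ℕ) + x))

noncomputable def Z (B : Set ℕ) (t : ℝ) (N : ℕ) (x : ℝ) : ℝ≥0∞ :=
  ∑' ω : Fin N → B, ENNReal.ofReal (E (wd ω) x ^ (2 * t))

theorem W_eq {B : Set ℕ} (hB : ∀ a ∈ B, 1 ≤ a) (t : ℝ) {x : ℝ} (hx : x ∈ Icc (0 : ℝ) 1) (N : ℕ)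
    (f : ℝ → ℝ≥0∞) : ∑' ω : Fin N → B, ENNReal.ofReal (E (wd ω) x ^ (2 * t)) * f (cp (wd ω) x) =
      (L B t)^[N] f x := by
  induction N generalizing f with
  | zero => simp [wd, E, cp]
  | succ N ih =>
    rw [Function.iterate_succ_apply, ← ih, ← (Fin.consEquiv (fun _ : Fin (N + 1) => B)).tsum_eq,
      ENNReal.tsum_prod', ENNReal.tsum_comm]
    refine tsum_congr fun w => ?_
    rw [L, ← ENNReal.tsum_mul_left]
    refine tsum_congr fun a => ?_
    obtain ⟨h1, h2, -⟩ := cp_mem (wd_ok hB w) hx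
    have h3 := (one_div_mem (hB _ a.2) h1).1
    have e : wd ((Fin.consEquiv (fun _ : Fin (N + 1) => B)) (a, w)) = (a : ℕ) :: wd w := by
      simp [wd, Fin.consEquiv, List.ofFn_succ]
    rw [e, E, cp, Real.mul_rpow h3.le h2.le, ENNReal.ofReal_mul (by positivity)]
    ring

theorem Z_eq {B : Set ℕ} (hB : ∀ a ∈ B, 1 ≤ a) (t : ℝ) {x : ℝ} (hx : x ∈ Icc (0 : ℝ) 1) (N : ℕ) :
    Z B t N x = (L B t)^[N] (fun _ => 1) x := by
  rw [← W_eq hB t hx]; simp [Z]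

theorem L_mono {B : Set ℕ} (hB : ∀ a ∈ B, 1 ≤ a) (t : ℝ) {f g : ℝ → ℝ≥0∞}
    (h : ∀ x ∈ Icc (0 : ℝ) 1, f x ≤ g x) {x : ℝ} (hx : x ∈ Icc (0 : ℝ) 1) : L B t f x ≤ L B t g x :=
  ENNReal.tsum_le_tsum fun a => mul_le_mul_right
    (h _ ⟨(one_div_mem (hB _ a.2) hx).1.le, (one_div_mem (hB _ a.2) hx).2⟩) _

theorem cover {B : Set ℕ} (hB : ∀ a ∈ B, 1 ≤ a) (N : ℕ) {x : ℝ} (hx0 : 0 ≤ x) (hx1 : x < 1)
    (h : ∀ i, ⌊1 / ((fun y : ℝ => Int.fract (1 / y))^[i] x)⌋₊ ∈ B) :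
    ∃ ω : Fin N → B, x ∈ cp (wd ω) '' Icc 0 1 := by
  induction N generalizing x with
  | zero => exact ⟨Fin.elim0, x, ⟨hx0, hx1.le⟩, rfl⟩
  | succ N ih =>
    obtain ⟨ω, y, hy, e⟩ := ih (Int.fract_nonneg (1 / x)) (Int.fract_lt_one _) fun i => h (i + 1)
    refine ⟨Fin.cons ⟨_, h 0⟩ ω, y, hy, ?_⟩
    have e2 : wd (Fin.cons ⟨_, h 0⟩ ω : Fin (N + 1) → B) = ⌊1 / x⌋₊ :: wd ω := by
      simp [wd, List.ofFn_succ]
    rw [e2, cp, e, natCast_floor_eq_intCast_floor (by positivity : 0 ≤ 1 / x), Int.floor_add_fract]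
    simp

theorem superh {B : Set ℕ} (hB : ∀ a ∈ B, 1 ≤ a) {t : ℝ} (ht : 0 ≤ t) (h : ℝ → ℝ≥0∞)
    (h1 : ∀ x ∈ Icc (0 : ℝ) 1, 1 ≤ h x) (h2 : ∀ x ∈ Icc (0 : ℝ) 1, L B t h x ≤ h x) (h3 : h 0 ≠ ⊤) :
    dimH (J B) ≤ ENNReal.ofReal t := by
  have h0 : (0 : ℝ) ∈ Icc (0 : ℝ) 1 := by simp
  have hZ : ∀ N, ∀ x ∈ Icc (0 : ℝ) 1, (L B t)^[N] (fun _ => 1) x ≤ h x := by
    intro N
    induction N with
    | zero => exact h1
    | succ N ih =>
      intro x hx
      rw [Function.iterate_succ_apply']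
      exact (L_mono hB t ih hx).trans (h2 x hx)
  have hd : ∀ l : List ℕ, (∀ a ∈ l, 1 ≤ a) → ediam (cp l '' Icc 0 1) ≤ ENNReal.ofReal (E l 0 ^ 2) := by
    intro l hl
    refine ediam_le ?_
    rintro _ ⟨x, hx, rfl⟩ _ ⟨y, hy, rfl⟩
    rw [edist_dist, Real.dist_eq, cp_sub hl hx hy]
    refine ENNReal.ofReal_le_ofReal ?_
    have a1 := (cp_mem hl hy).2.1
    have a2 := (cp_mem hl h0).2.1
    have : |x - y| ≤ 1 := by rw [abs_le]; constructor <;> linarith [hx.1, hx.2, hy.1, hy.2]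
    calc _ ≤ E l 0 * E l 0 * 1 := by
          gcongr
          · exact (E_dist hl hx).1
          · exact (E_dist hl hy).1
      _ = _ := by ring
  have k1 := Measure.hausdorffMeasure_le_liminf_tsum t (J B) (l := atTop)
    (fun n : ℕ => ENNReal.ofReal (4 * (4 / 9) ^ n))
    (by rw [← ENNReal.ofReal_zero, ← mul_zero (4 : ℝ)]
        exact ENNReal.tendsto_ofReal ((tendsto_pow_atTop_nhds_zero_of_lt_one (by norm_num)
          (by norm_num)).const_mul 4))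
    (fun n (w : Fin n → B) => cp (wd w) '' Icc 0 1)
    (Eventually.of_forall (fun n w => (hd _ (wd_ok hB w)).trans (ENNReal.ofReal_le_ofReal (by
      obtain ⟨a1, a2, a3⟩ := cp_mem (wd_ok hB w) h0
      rw [show (wd w).length = n by simp [wd]] at a3
      have a4 : E (wd w) 0 ≤ 2 * (2 / 3) ^ n := by
        rw [← inv_div, inv_pow, ← div_eq_mul_inv, le_div_iff₀ (by positivity)]; linarith [a1.2]
      calc E (wd w) 0 ^ 2 ≤ (2 * (2 / 3) ^ n) ^ 2 := by gcongr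
        _ = 4 * (4 / 9) ^ n := by rw [mul_pow, ← pow_mul, mul_comm n, pow_mul]; norm_num))))
    (Eventually.of_forall (fun n x hx => mem_iUnion.2 (cover hB n hx.1.1.le hx.1.2 hx.2)))
  have k2 : ∀ n, ∑' w : Fin n → B, ediam (cp (wd w) '' Icc 0 1) ^ t ≤ h 0 := by
    intro n
    refine le_trans (ENNReal.tsum_le_tsum fun w => ?_) ((Z_eq hB t h0 n).le.trans (hZ n 0 h0))
    have a2 := (cp_mem (wd_ok hB w) h0).2.1
    refine (ENNReal.rpow_le_rpow (hd _ (wd_ok hB w)) ht).trans (le_of_eq ?_)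
    rw [ENNReal.ofReal_rpow_of_nonneg (by positivity) ht, Real.rpow_mul a2.le, Real.rpow_two]
  have k3 := k1.trans (liminf_le_of_frequently_le' (Frequently.of_forall k2))
  lift t to NNReal using ht
  rw [ENNReal.ofReal_coe_nnreal]
  exact dimH_le_of_hausdorffMeasure_ne_top (ne_top_of_le_ne_top h3 k3)

end Pool.Agent.H.MP_41c62e_nt
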