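import Pool.Agent.H.MP_41c62e_nt.A

set_option autoImplicit false

namespace Pool.Agent.H.MP_41c62e_nt

open Set Metric Filter Topology MeasureTheory
open scoped ENNReal NNReal

def Tail (a : ℕ → ℕ) (y : ℕ → ℝ) : Prop :=
  (∀ n, 0 < y n ∧ y n < 1) ∧ ∀ n, y n * (a n + y (n + 1)) = 1

theorem Tail.eq {a : ℕ → ℕ} {y : ℕ → ℝ} (h : Tail a y) (n : ℕ) : 1 / y n = a n + y (n + 1) := by
  rw [div_eq_iff (h.1 n).1.ne']; linarith [h.2 n]

theorem Tail.cp_eq {a : ℕ → ℕ} {y : ℕ → ℝ} (h : Tail a y) (N : ℕ) :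
    y 0 = cp (List.ofFn fun i : Fin N => a i) (y N) := by
  induction N generalizing a y with
  | zero => rfl
  | succ N ih =>
    have := ih (a := fun n => a (n + 1)) (y := fun n => y (n + 1)) ⟨fun n => h.1 _, fun n => h.2 _⟩
    rw [List.ofFn_succ, cp]
    simp only [Fin.val_succ, Fin.val_zero]
    rw [← this, ← h.eq 0, one_div_one_div]

theorem Tail.mem {a : ℕ → ℕ} {y : ℕ → ℝ} (h : Tail a y) {F : Set ℕ} (hF : ∀ n, a n ∈ F) :
    y 0 ∈ J F := by
  have e : ∀ i, (fun y : ℝ => Int.fract (1 / y))^[i] (y 0) = y i := by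
    intro i
    induction i with
    | zero => rfl
    | succ i ih =>
      rw [Function.iterate_succ_apply', ih, h.eq, Int.fract_natCast_add,
        Int.fract_eq_self.2 ⟨(h.1 _).1.le, (h.1 _).2⟩]
  refine ⟨h.1 0, fun i => ?_⟩
  have := h.1 (i + 1)
  rw [e, h.eq, (Nat.floor_eq_iff (by linarith [Nat.cast_nonneg (α := ℝ) (a i)])).2
    ⟨by linarith, by linarith⟩]
  exact hF i

def Gap (F : Set ℕ) : Prop := (∀ a ∈ F, 1 ≤ a) ∧ ∀ a ∈ F, ∀ b ∈ F, a < b → a + 2 ≤ b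

theorem Gap.mono {F G : Set ℕ} (h : Gap G) (hs : F ⊆ G) : Gap F :=
  ⟨fun a ha => h.1 a (hs ha), fun a ha b hb => h.2 a (hs ha) b (hs hb)⟩

theorem gap_cp {F : Set ℕ} (hF : Gap F) {M : ℕ} (hM : ∀ a ∈ F, a ≤ M) (l l' : List ℕ)
    (hl : ∀ a ∈ l, a ∈ F) (hl' : ∀ a ∈ l', a ∈ F) (he : l.length = l'.length) (hne : l ≠ l')
    {x y : ℝ} (hx : x ∈ Icc (0 : ℝ) 1) (hy : y ∈ Icc (0 : ℝ) 1) :
    (1 / ((M : ℝ) + 1) ^ 2) ^ l.length ≤ |cp l x - cp l' y| := by
  induction l generalizing l' with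
  | nil => exact absurd (List.length_eq_zero_iff.1 he.symm).symm hne
  | cons a l ih =>
    rcases l' with _ | ⟨b, l'⟩
    · simp at he
    have h1 := (cp_mem (fun c hc => hF.1 c (hl c (List.mem_cons_of_mem _ hc))) hx).1
    have h2 := (cp_mem (fun c hc => hF.1 c (hl' c (List.mem_cons_of_mem _ hc))) hy).1
    have ha := hl a List.mem_cons_self
    have hb := hl' b List.mem_cons_self
    have a1 : (1 : ℝ) ≤ a := by exact_mod_cast hF.1 a ha
    have b1 : (1 : ℝ) ≤ b := by exact_mod_cast hF.1 b hb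
    have a2 : (a : ℝ) ≤ M := by exact_mod_cast hM a ha
    have b2 : (b : ℝ) ≤ M := by exact_mod_cast hM b hb
    have p1 : 0 < a + cp l x := by linarith [h1.1]
    have p2 : 0 < b + cp l' y := by linarith [h2.1]
    have key : (1 / ((M : ℝ) + 1) ^ 2) ^ l.length ≤ |(b + cp l' y) - (a + cp l x)| := by
      have c1 : (1 / ((M : ℝ) + 1) ^ 2) ^ l.length ≤ 1 := pow_le_one₀ (by positivity) (by
        rw [div_le_one (by positivity)]; nlinarith)
      rcases lt_trichotomy a b with h | rfl | h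
      · have : (a : ℝ) + 2 ≤ b := by exact_mod_cast hF.2 a ha b hb h
        exact c1.trans (le_trans (by linarith [h1.2, h2.1]) (le_abs_self _))
      · rw [add_sub_add_left_eq_sub, abs_sub_comm]
        exact ih l' (fun c hc => hl c (List.mem_cons_of_mem _ hc))
          (fun c hc => hl' c (List.mem_cons_of_mem _ hc)) (by simpa using he) (by simpa using hne)
      · have : (b : ℝ) + 2 ≤ a := by exact_mod_cast hF.2 b hb a ha h
        exact c1.trans (le_trans (by linarith [h1.1, h2.2]) (neg_le_abs _))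
    rw [cp, cp, div_sub_div _ _ p1.ne' p2.ne', abs_div, one_mul, mul_one,
      abs_of_pos (mul_pos p1 p2), List.length_cons, pow_succ, mul_one_div]
    exact div_le_div₀ (abs_nonneg _) key (mul_pos p1 p2) (by
      rw [sq]; gcongr <;> linarith [h1.2, h2.2])

theorem lowerJ {F : Set ℕ} [Fintype F] (hF : Gap F) {N : ℕ} (hN : 0 < N) {s : ℝ} (hs : 0 < s)
    (h : 1 ≤ ∑ ω : Fin N → F, ((E (wd ω) 0 / 2) ^ 2) ^ s) : ENNReal.ofReal s ≤ dimH (J F) := by
  classical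
  have h0 : (0 : ℝ) ∈ Icc (0 : ℝ) 1 := by simp
  obtain ⟨M, hM⟩ := (toFinite F).bddAbove
  set dig : (ℕ → Fin N → F) → ℕ → ℕ := fun Ω n => Ω (n / N) ⟨n % N, Nat.mod_lt _ hN⟩ with hdig
  have ex : ∀ Ω, ∃ y, Tail (dig Ω) y := fun Ω =>
    Lib.helper12.exists_tails _ fun n => hF.1 _ (Subtype.prop _)
  choose Y hY using ex
  have e1 : ∀ Ω y, Tail (dig Ω) y → y 0 = cp (wd (Ω 0)) (y N) := by
    intro Ω y hy
    rw [hy.cp_eq N, wd]
    congr 2
    ext i
    simp [hdig, Nat.div_eq_of_lt i.2, Nat.mod_eq_of_lt i.2]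
  have e2 : ∀ Ω y, Tail (dig Ω) y → Tail (dig fun n => Ω (n + 1)) fun n => y (n + N) := by
    intro Ω y hy
    refine ⟨fun n => hy.1 _, fun n => ?_⟩
    have := hy.2 (n + N)
    simp only [hdig, Nat.add_div_right _ hN, Nat.add_mod_right] at this ⊢
    rw [Nat.add_right_comm]; exact this
  have hI : ∀ a y n, Tail a y → y n ∈ Icc (0 : ℝ) 1 := fun a y n hy => ⟨(hy.1 n).1.le, (hy.1 n).2.le⟩
  have key : ∀ k Ω Θ y y', Tail (dig Ω) y → Tail (dig Θ) y' → (∀ i < k, Ω i = Θ i) → Ω k ≠ Θ k →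
      (1 / ((M : ℝ) + 1) ^ 2) ^ N * ∏ i ∈ Finset.range k, (E (wd (Θ i)) 0 / 2) ^ 2 ≤ |y 0 - y' 0| := by
    intro k
    induction k with
    | zero =>
      intro Ω Θ y y' hy hy' _ hne
      have := gap_cp hF (M := M) (fun a ha => hM ha) (wd (Ω 0)) (wd (Θ 0))
        (fun a ha => by obtain ⟨i, rfl⟩ := List.mem_ofFn.1 ha; exact Subtype.prop _)
        (fun a ha => by obtain ⟨i, rfl⟩ := List.mem_ofFn.1 ha; exact Subtype.prop _)
        (by simp [wd]) (fun e => hne (funext fun i => Subtype.ext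
          (congrFun (List.ofFn_injective e) i))) (hI _ _ N hy) (hI _ _ N hy')
      rw [e1 _ _ hy, e1 _ _ hy']
      simpa [wd] using this
    | succ k ih =>
      intro Ω Θ y y' hy hy' h1 hne
      have := ih (fun n => Ω (n + 1)) (fun n => Θ (n + 1)) _ _ (e2 _ _ hy) (e2 _ _ hy') (fun i hi => h1 _ (by omega)) hne
      have ok := wd_ok hF.1 (Θ 0)
      rw [e1 _ _ hy, e1 _ _ hy', h1 0 (by omega), cp_sub ok (hI _ _ N hy) (hI _ _ N hy'),
        Finset.prod_range_succ', ← mul_assoc, mul_comm]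
      simp only [zero_add] at this
      have a1 := (E_dist ok (hI _ _ N hy)).2
      have a2 := (E_dist ok (hI _ _ N hy')).2
      have a3 := (cp_mem ok h0).2.1
      refine mul_le_mul ?_ this (by positivity) (by nlinarith)
      rw [sq]; gcongr <;> linarith
  refine moran (fun ω : Fin N → F => (E (wd ω) 0 / 2) ^ 2) (fun ω => ?_) (fun Ω => Y Ω 0)
    ((1 / ((M : ℝ) + 1) ^ 2) ^ N) (by positivity)
    (fun k Ω Θ h1 h2 => key k Ω Θ _ _ (hY Ω) (hY Θ) h1 h2) hs h _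
    (fun Ω => (hY Ω).mem fun n => Subtype.prop _)
  have a3 := (cp_mem (wd_ok hF.1 ω) h0).2.1
  have a4 : ∀ l : List ℕ, (∀ a ∈ l, 1 ≤ a) → E l 0 ≤ 1 := by
    intro l hl
    induction l with
    | nil => exact le_rfl
    | cons a l ih =>
      have hl' : ∀ b ∈ l, 1 ≤ b := fun b hb => hl b (List.mem_cons_of_mem _ hb)
      exact mul_le_one₀ (one_div_mem (hl a List.mem_cons_self) (cp_mem hl' h0).1).2
        (cp_mem hl' h0).2.1.le (ih hl')
  have := a4 _ (wd_ok hF.1 ω)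
  exact ⟨by positivity, by nlinarith⟩

theorem Z_le {F : Set ℕ} (hf : F.Finite) (hF : Gap F) {s : ℝ} (h : dimH (J F) < ENNReal.ofReal s)
    (N : ℕ) : Z F s N 0 ≤ ENNReal.ofReal (4 ^ s) := by
  classical
  have hs : 0 < s := ENNReal.ofReal_pos.1 (lt_of_le_of_lt (by positivity) h)
  have h0 : (0 : ℝ) ∈ Icc (0 : ℝ) 1 := by simp
  have := hf.fintype
  rcases N.eq_zero_or_pos with rfl | hN
  · simpa [Z, wd, E] using Real.one_le_rpow (by norm_num) hs.le
  have h1 := not_le.1 fun hc => not_le.2 h (lowerJ hF hN hs hc)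
  rw [Z, tsum_fintype, ← ENNReal.ofReal_sum_of_nonneg fun ω _ =>
    Real.rpow_nonneg (cp_mem (wd_ok hF.1 ω) h0).2.1.le _]
  refine ENNReal.ofReal_le_ofReal ?_
  have e : ∀ ω : Fin N → F, E (wd ω) 0 ^ (2 * s) = 4 ^ s * ((E (wd ω) 0 / 2) ^ 2) ^ s := fun ω => by
    have := (cp_mem (wd_ok hF.1 ω) h0).2.1
    rw [Real.rpow_mul this.le, Real.rpow_two, ← Real.mul_rpow (by norm_num) (by positivity)]
    congr 1; ring
  simp only [e]
  rw [← Finset.mul_sum]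
  exact mul_le_of_le_one_right (by positivity) h1.le

theorem L_tsum (B : Set ℕ) (t : ℝ) (f : ℕ → ℝ → ℝ≥0∞) (x : ℝ) :
    L B t (fun y => ∑' n, f n y) x = ∑' n, L B t (f n) x := by
  unfold L
  rw [ENNReal.tsum_comm]
  simp only [ENNReal.tsum_mul_left]

theorem exists_h {F : Set ℕ} (hf : F.Finite) (hF : Gap F) {t δ : ℝ} (hδ : 0 < δ) (hδ1 : δ ≤ 1)
    (ht : t ≤ 2) (h : dimH (J F) < ENNReal.ofReal (t - δ)) : ∃ h : ℝ → ℝ≥0∞,
    (∀ x ∈ Icc (0 : ℝ) 1, L F t h x + 1 = h x) ∧ (∀ x ∈ Icc (0 : ℝ) 1, h x ≤ ENNReal.ofReal (120 / δ)) ∧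
      ∀ x ∈ Icc (0 : ℝ) 1, ∀ y ∈ Icc (0 : ℝ) 1, h x ≤ 16 * h y := by
  have hs : 0 < t - δ := ENNReal.ofReal_pos.1 (lt_of_le_of_lt (by positivity) h)
  have h0 : (0 : ℝ) ∈ Icc (0 : ℝ) 1 := by simp
  have a1 : ∀ N, ∀ x ∈ Icc (0 : ℝ) 1, Z F t N x ≤ Z F t N 0 := fun N x hx =>
    ENNReal.tsum_le_tsum fun ω => ENNReal.ofReal_le_ofReal (Real.rpow_le_rpow
      (cp_mem (wd_ok hF.1 ω) hx).2.1.le (E_dist (wd_ok hF.1 ω) hx).1 (by linarith))
  have p16 : ∀ u : ℝ, u ≤ 2 → (4 : ℝ) ^ u ≤ 16 := fun u hu =>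
    (Real.rpow_le_rpow_of_exponent_le (by norm_num) hu).trans (by norm_num)
  have a2 : ∀ N, ∀ x ∈ Icc (0 : ℝ) 1, Z F t N 0 ≤ 16 * Z F t N x := fun N x hx => by
    rw [Z, Z, ← ENNReal.tsum_mul_left]
    refine ENNReal.tsum_le_tsum fun ω => ?_
    have b1 := (cp_mem (wd_ok hF.1 ω) hx).2.1
    rw [← ENNReal.ofReal_ofNat, ← ENNReal.ofReal_mul (by norm_num)]
    refine ENNReal.ofReal_le_ofReal ((Real.rpow_le_rpow (cp_mem (wd_ok hF.1 ω) h0).2.1.le
      (E_dist (wd_ok hF.1 ω) hx).2 (by linarith)).trans ?_)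
    rw [Real.mul_rpow (by norm_num) b1.le, Real.rpow_mul (by norm_num), Real.rpow_two]
    have := p16 t ht
    norm_num
    gcongr
  have a3 : ∀ N, Z F t N 0 ≤ ENNReal.ofReal (64 * ((4 / 9) ^ δ) ^ N) := fun N => by
    have : Z F t N 0 ≤ ENNReal.ofReal (4 * ((4 / 9) ^ δ) ^ N) * Z F (t - δ) N 0 := by
      rw [Z, Z, ← ENNReal.tsum_mul_left]
      refine ENNReal.tsum_le_tsum fun ω => ?_
      obtain ⟨b0, b1, b2⟩ := cp_mem (wd_ok hF.1 ω) h0
      rw [show (wd ω).length = N by simp [wd]] at b2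
      have b3 : E (wd ω) 0 ≤ 2 * (2 / 3) ^ N := by
        rw [← inv_div, inv_pow, ← div_eq_mul_inv, le_div_iff₀ (by positivity)]; linarith [b0.2]
      rw [← ENNReal.ofReal_mul (by positivity), show 2 * t = 2 * δ + 2 * (t - δ) by ring,
        Real.rpow_add b1]
      refine ENNReal.ofReal_le_ofReal (mul_le_mul_of_nonneg_right ?_ (by positivity))
      calc E (wd ω) 0 ^ (2 * δ) ≤ (2 * (2 / 3) ^ N) ^ (2 * δ) := by gcongr
        _ = 4 ^ δ * ((4 / 9) ^ δ) ^ N := by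
          rw [Real.rpow_mul (by positivity), Real.rpow_two, mul_pow, ← pow_mul, mul_comm N, pow_mul,
            Real.mul_rpow (by positivity) (by positivity), Real.rpow_pow_comm (by positivity)]
          norm_num
        _ ≤ _ := by
          gcongr
          exact (Real.rpow_le_rpow_of_exponent_le (by norm_num) hδ1).trans (by norm_num)
    refine this.trans ((mul_le_mul_right (Z_le hf hF h N) _).trans ?_)
    rw [← ENNReal.ofReal_mul (by positivity)]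
    refine ENNReal.ofReal_le_ofReal ?_
    have := p16 (t - δ) (by linarith)
    have : 0 ≤ ((4 / 9 : ℝ) ^ δ) ^ N := by positivity
    nlinarith
  refine ⟨fun x => ∑' N, (L F t)^[N] (fun _ => 1) x, fun x _ => ?_, fun x hx => ?_,
    fun x hx y hy => ?_⟩
  · rw [L_tsum, add_comm]
    conv_rhs => beta_reduce; rw [tsum_eq_zero_add' ENNReal.summable]
    simp only [Function.iterate_succ_apply', Function.iterate_zero, id]
  · simp only [← Z_eq hF.1 t hx]
    refine (ENNReal.tsum_le_tsum fun N => (a1 N x hx).trans (a3 N)).trans ?_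
    have b1 : (4 / 9 : ℝ) ^ δ ≤ 1 - 5 / 9 * δ := by
      have := rpow_one_add_le_one_add_mul_self (s := -5 / 9) (by norm_num) hδ.le hδ1
      norm_num at this ⊢
      linarith
    have b2 := (hasSum_geometric_of_lt_one (r := (4 / 9 : ℝ) ^ δ) (by positivity)
      (by linarith)).mul_left 64
    rw [← ENNReal.ofReal_tsum_of_nonneg (fun n => by positivity) b2.summable, b2.tsum_eq]
    refine ENNReal.ofReal_le_ofReal ?_
    rw [← div_eq_mul_inv, div_le_div_iff₀ (by linarith) hδ]; linarith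
  · simp only [← Z_eq hF.1 t hx, ← Z_eq hF.1 t hy]
    rw [← ENNReal.tsum_mul_left]
    exact ENNReal.tsum_le_tsum fun N => (a1 N x hx).trans (a2 N y hy)

theorem L_union (A B : Set ℕ) (t : ℝ) (f : ℝ → ℝ≥0∞) (x : ℝ) :
    L (A ∪ B) t f x ≤ L A t f x + L B t f x :=
  ENNReal.tsum_union_le (fun a : ℕ => ENNReal.ofReal ((1 / (a + x)) ^ (2 * t)) * f (1 / (a + x))) A B

theorem L_tail {T : Set ℕ} (hT : ∀ a ∈ T, 1 ≤ a) (g : ℕ → ℕ) (hg : T ⊆ range g) {t : ℝ} (ht : 0 ≤ t)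
    (f : ℝ → ℝ≥0∞) (c : ℝ≥0∞) (hc : ∀ x ∈ Icc (0 : ℝ) 1, f x ≤ c) {x : ℝ} (hx : x ∈ Icc (0 : ℝ) 1) :
    L T t f x ≤ (∑' m, ENNReal.ofReal ((1 / (g m : ℝ)) ^ (2 * t))) * c := by
  rw [L, ← ENNReal.tsum_mul_right]
  calc _ ≤ ∑' a : T, ENNReal.ofReal ((1 / ((a : ℕ) : ℝ)) ^ (2 * t)) * c := by
        refine ENNReal.tsum_le_tsum fun a => mul_le_mul' (ENNReal.ofReal_le_ofReal ?_)
          (hc _ ⟨(one_div_mem (hT _ a.2) hx).1.le, (one_div_mem (hT _ a.2) hx).2⟩)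
        have : (1 : ℝ) ≤ (a : ℕ) := by exact_mod_cast hT _ a.2
        have := hx.1
        gcongr; linarith
    _ ≤ ∑' a : range g, ENNReal.ofReal ((1 / ((a : ℕ) : ℝ)) ^ (2 * t)) * c :=
        ENNReal.tsum_mono_subtype (fun a : ℕ => ENNReal.ofReal ((1 / (a : ℝ)) ^ (2 * t)) * c) hg
    _ ≤ _ := ENNReal.tsum_le_tsum_comp_of_surjective rangeFactorization_surjective _

theorem J_mono {A B : Set ℕ} (h : A ⊆ B) : dimH (J A) ≤ dimH (J B) :=
  dimH_mono fun _ hx => ⟨hx.1, fun i => h (hx.2 i)⟩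

theorem J_le (A : Set ℕ) : dimH (J A) ≤ 1 :=
  (dimH_mono (subset_univ _)).trans Real.dimH_univ.le

end Pool.Agent.H.MP_41c62e_nt
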