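import Pool.Agent.H.MP_41c62e_nt.B

set_option autoImplicit false

namespace Pool.Agent.H.MP_41c62e_nt

open Set Metric Filter Topology MeasureTheory
open scoped ENNReal NNReal

def DS (A : Set ℕ) : Set ℝ := {s | 0 ≤ s ∧ ∃ B ⊆ A, dimH (J B) = ENNReal.ofReal s}

def P (q : ℕ) : Set ℕ := {a | ∃ n, 1 ≤ n ∧ a = q ^ n} ∪ {1}

theorem P_sub {q : ℕ} : P q ⊆ range fun n => q ^ n := by
  rintro a (⟨n, -, rfl⟩ | rfl)
  · exact ⟨n, rfl⟩
  · exact ⟨0, by simp⟩

theorem P_gap {q : ℕ} (hq : 3 ≤ q) : Gap (P q) := by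
  constructor
  · intro a ha
    obtain ⟨n, rfl⟩ := P_sub ha
    exact Nat.one_le_pow _ _ (by omega)
  · intro a ha b hb h
    obtain ⟨n, rfl⟩ := P_sub ha
    obtain ⟨m, rfl⟩ := P_sub hb
    have h1 : n + 1 ≤ m := (Nat.pow_lt_pow_iff_right (by omega)).1 h
    have h2 := Nat.pow_le_pow_right (by omega : 0 < q) h1
    have h3 := Nat.one_le_pow n q (by omega)
    rw [pow_succ] at h2
    show q ^ n + 2 ≤ q ^ m
    nlinarith

theorem approx {q : ℕ} (hq : 3 ≤ q) {B : Set ℕ} (hB : B ⊆ P q) {s s' : ℝ}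
    (hs : dimH (J B) = ENNReal.ofReal s) (h0 : 0 ≤ s') (h1 : s' < s)
    (hθ : (1 / (q : ℝ)) ^ (2 * s') ≤ 1 / 2) (n : ℕ) (δ : ℝ)
    (hδ : δ = 120 * ((1 / (q : ℝ)) ^ (2 * s')) ^ n) (hδ1 : δ ≤ 1) :
    s ≤ (dimH (J (B ∩ (fun i => q ^ i) '' Iic n))).toReal + 2 * δ := by
  set F := B ∩ (fun i => q ^ i) '' Iic n with hF
  have hq0 : (3 : ℝ) ≤ q := by exact_mod_cast hq
  set θ := (1 / (q : ℝ)) ^ (2 * s') with hθ'
  have θ0 : 0 < θ := by positivity
  have δ0 : 0 < δ := by rw [hδ]; positivity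
  have hfin : dimH (J F) ≠ ⊤ := ne_top_of_le_ne_top ENNReal.one_ne_top (J_le F)
  have s1 : s ≤ 1 := ENNReal.ofReal_le_one.1 (hs ▸ J_le B)
  by_contra hc
  have hn := ENNReal.toReal_nonneg (a := dimH (J F))
  set t := max ((dimH (J F)).toReal + 2 * δ) s' with ht
  have t1 : t < s := max_lt (not_le.1 hc) h1
  have t2 : s' ≤ t := le_max_right _ _
  have t3 : (dimH (J F)).toReal + 2 * δ ≤ t := le_max_left _ _
  have gB := (P_gap hq).mono hB
  obtain ⟨h, a1, a2, -⟩ := exists_h (((finite_Iic n).image _).inter_of_right B)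
    (gB.mono inter_subset_left) δ0 hδ1 (t := t) (by linarith) (by
      rw [← ENNReal.ofReal_toReal hfin, ENNReal.ofReal_lt_ofReal_iff (by linarith)]; linarith)
  have := superh gB.1 (t := t) (by linarith) h (fun x hx => a1 x hx ▸ le_add_self) (fun x hx => ?_)
    (ne_top_of_le_ne_top ENNReal.ofReal_ne_top (a2 0 (by simp)))
  · rw [hs, ENNReal.ofReal_le_ofReal_iff (by linarith)] at this
    linarith
  rw [← a1 x hx]
  conv_lhs => rw [← inter_union_diff B ((fun i => q ^ i) '' Iic n)]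
  refine (L_union _ _ _ _ _).trans (add_le_add_right ?_ _)
  refine (L_tail (fun a ha => gB.1 a ha.1) (fun m => q ^ (m + (n + 1))) (fun a ha => ?_)
    (by linarith) h _ a2 hx).trans ?_
  · obtain ⟨m, rfl⟩ := P_sub (hB ha.1)
    have : n < m := by
      by_contra hm
      exact ha.2 ⟨m, not_lt.1 hm, rfl⟩
    exact ⟨m - (n + 1), by simp only; congr 1; omega⟩
  · have b2 := (hasSum_geometric_of_lt_one θ0.le (by linarith)).mul_left (θ ^ (n + 1))
    have b3 : ∑' m, ENNReal.ofReal ((1 / ((q ^ (m + (n + 1)) : ℕ) : ℝ)) ^ (2 * t)) ≤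
        ENNReal.ofReal (θ ^ (n + 1) * (1 - θ)⁻¹) := by
      rw [← b2.tsum_eq, ENNReal.ofReal_tsum_of_nonneg (fun n => by positivity) b2.summable]
      refine ENNReal.tsum_le_tsum fun m => ENNReal.ofReal_le_ofReal ?_
      rw [← pow_add, add_comm (n + 1), Nat.cast_pow, ← one_div_pow,
        ← Real.rpow_pow_comm (by positivity)]
      gcongr
      exact Real.rpow_le_rpow_of_exponent_ge (by positivity)
        (by rw [div_le_one] <;> linarith) (by linarith)
    refine (mul_le_mul_left b3 _).trans ?_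
    rw [← ENNReal.ofReal_mul (by have : 0 < 1 - θ := by linarith
                                 positivity), ENNReal.ofReal_le_one, hδ]
    have : 0 < 1 - θ := by linarith
    field_simp
    rw [pow_succ, mul_comm]
    have := pow_pos θ0 n
    nlinarith

theorem main (q : ℕ) (hq : 3 ≤ q) :
    IsNowhereDense (DS (P q) ∩ Ioi (Real.log 2 / (2 * Real.log q))) := by
  classical
  have hq0 : (3 : ℝ) ≤ q := by exact_mod_cast hq
  have hl : 0 < Real.log q := Real.log_pos (by linarith)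
  have hs0 : 0 < Real.log 2 / (2 * Real.log q) := by have := Real.log_pos one_lt_two; positivity
  by_contra hc
  obtain ⟨z, hz⟩ := nonempty_iff_ne_empty.2 hc
  obtain ⟨a, b, ⟨h1, h2⟩, h3⟩ := mem_nhds_iff_exists_Ioo_subset.1 (mem_interior_iff_mem_nhds.1 hz)
  have h4 : Real.log 2 / (2 * Real.log q) ≤ z :=
    closure_minimal (inter_subset_right.trans Ioi_subset_Ici_self) isClosed_Ici (h3 ⟨h1, h2⟩)
  set s' := (z + b) / 2 with hs'
  set θ := (1 / (q : ℝ)) ^ (2 * s') with hθ
  have θ0 : 0 < θ := by positivity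
  have θ1 : θ < 1 / 2 := by
    rw [div_le_iff₀ (by positivity)] at h4
    rw [hθ, ← Real.log_lt_log_iff θ0 (by norm_num), Real.log_rpow (by positivity), one_div, one_div,
      Real.log_inv, Real.log_inv]
    nlinarith
  have key : ∀ n : ℕ, 120 * θ ^ n ≤ 1 → b - s' ≤ 480 * (2 * θ) ^ n := by
    intro n hn
    set d : Finset ℕ → ℝ := fun G => (dimH (J ((fun i => q ^ i) '' (G : Set ℕ)))).toReal with hd
    have cov : closure (DS (P q) ∩ Ioi (Real.log 2 / (2 * Real.log q))) ⊆ Iic s' ∪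
        ⋃ G ∈ (Finset.range (n + 1)).powerset, Icc (d G) (d G + 2 * (120 * θ ^ n)) := by
      refine closure_minimal ?_ (isClosed_Iic.union
        (isClosed_biUnion_finset fun _ _ => isClosed_Icc))
      rintro s ⟨⟨s0, B, hB, e⟩, -⟩
      rcases le_or_gt s s' with h | h
      · exact Or.inl h
      have e2 : (fun i => q ^ i) '' ((Finset.range (n + 1)).filter (fun i => q ^ i ∈ B) : Set ℕ) =
          B ∩ (fun i => q ^ i) '' Iic n := by
        ext a
        simp only [Finset.coe_filter, Finset.mem_range, mem_image, mem_ofPred_eq, mem_inter_iff,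
          mem_Iic, Nat.lt_succ_iff]
        constructor
        · rintro ⟨i, ⟨h1, h2⟩, rfl⟩; exact ⟨h2, i, h1, rfl⟩
        · rintro ⟨h2, i, h1, rfl⟩; exact ⟨i, ⟨h1, h2⟩, rfl⟩
      refine Or.inr (mem_biUnion (x := (Finset.range (n + 1)).filter (fun i => q ^ i ∈ B))
        (Finset.mem_powerset.2 (Finset.filter_subset _ _)) ⟨?_, ?_⟩)
      · simp only [hd, e2]
        exact ENNReal.toReal_le_of_le_ofReal s0 (e ▸ J_mono inter_subset_left)
      · simp only [hd, e2]
        exact approx hq hB e (by linarith) h θ1.le n _ rfl hn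
    have sub : Ioo s' b ⊆ ⋃ G ∈ (Finset.range (n + 1)).powerset,
        Icc (d G) (d G + 2 * (120 * θ ^ n)) := fun x hx =>
      (cov (h3 ⟨by linarith [hx.1], hx.2⟩)).resolve_left (not_le.2 hx.1)
    have := (measure_mono (μ := volume) sub).trans (measure_biUnion_finset_le _ _)
    simp only [Real.volume_Ioo, Real.volume_Icc, add_sub_cancel_left, Finset.sum_const,
      Finset.card_powerset, Finset.card_range, nsmul_eq_mul] at this
    rw [← ENNReal.ofReal_natCast, ← ENNReal.ofReal_mul (by positivity),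
      ENNReal.ofReal_le_ofReal_iff (by positivity)] at this
    refine this.trans (le_of_eq ?_)
    push_cast; ring
  have t1 := (tendsto_pow_atTop_nhds_zero_of_lt_one θ0.le (by linarith)).const_mul 120
  have t2 := (tendsto_pow_atTop_nhds_zero_of_lt_one (r := 2 * θ) (by linarith)
    (by linarith)).const_mul 480
  rw [mul_zero] at t1 t2
  obtain ⟨n, n1, n2⟩ := ((t1.eventually (gt_mem_nhds one_pos)).and
    (t2.eventually (gt_mem_nhds (by linarith : 0 < b - s')))).exists
  linarith [key n n1.le]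

end Pool.Agent.H.MP_41c62e_nt
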